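import Mathlib
import Pool.Agent.Helper7.OT.Sinc

set_option autoImplicit false

/-!
(MAJ) of project PL: a band-limited majorant of `exp(-2Vx)` on `x > 0`, with an explicit transform.
-/

namespace Pool.Agent.V5helper19.PL

open MeasureTheory Filter Topology Complex Set

/-- the triangle function -/
noncomputable def tn (x : ℝ) : ℝ := max 0 (1 - |x|)

lemma tn_cont : Continuous tn := by unfold tn; fun_prop

lemma tn_nonneg (x : ℝ) : 0 ≤ tn x := le_max_left _ _

lemma tn_le (x : ℝ) : tn x ≤ 1 := max_le (by norm_num) (by linarith [abs_nonneg x])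

lemma tn_zero {x : ℝ} (h : 1 ≤ |x|) : tn x = 0 := max_eq_left (by linarith)

/-- the kernel -/
noncomputable def KR (R u : ℝ) : ℝ := R / (2 * Real.pi) * Real.sinc (R * u / 2) ^ 2

lemma KR_cont (R : ℝ) : Continuous (KR R) := by
  unfold KR
  have := Real.continuous_sinc
  fun_prop

lemma KR_nonneg {R : ℝ} (hR : 0 < R) (u : ℝ) : 0 ≤ KR R u := by
  unfold KR
  have := Real.pi_pos
  positivity

lemma KR_le {R : ℝ} (hR : 0 < R) (u : ℝ) : KR R u ≤ R / (2 * Real.pi) := by
  unfold KR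
  have h1 : Real.sinc (R * u / 2) ^ 2 ≤ 1 := by
    rw [sq_le_one_iff_abs_le_one]
    exact Real.abs_sinc_le_one _
  have := Real.pi_pos
  have h2 : 0 ≤ R / (2 * Real.pi) := by positivity
  nlinarith

open FourierTransform in
lemma KR_eq {R : ℝ} (hR : 0 < R) (u : ℝ) : ((KR R u : ℝ) : ℂ) =
    (1 / (2 * Real.pi) : ℝ) * ∫ ξ in Icc (-R) R, ((tn (ξ / R) : ℝ) : ℂ) * Complex.exp (((ξ * u : ℝ) : ℂ) * I) := by
  have hpi := Real.pi_pos
  have h1 := Pool.Agent.Helper7.Simplex.OT.J26884.sinc_fourier_aux1 (-(R * u / (2 * Real.pi)))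
  rw [Real.fourier_real_eq_integral_exp_smul] at h1
  have h2 : Real.sinc (Real.pi * -(R * u / (2 * Real.pi))) = Real.sinc (R * u / 2) := by
    rw [← Real.sinc_neg]
    congr 1
    field_simp
  rw [h2] at h1
  have h3 : ∫ ξ : ℝ, ((tn (ξ / R) : ℝ) : ℂ) * Complex.exp (((ξ * u : ℝ) : ℂ) * I) =
      (R : ℂ) * ∫ v : ℝ, ((tn v : ℝ) : ℂ) * Complex.exp (((v * (R * u) : ℝ) : ℂ) * I) := by
    have h := Measure.integral_comp_div
      (fun v : ℝ => ((tn v : ℝ) : ℂ) * Complex.exp (((v * (R * u) : ℝ) : ℂ) * I)) R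
    rw [abs_of_pos hR, real_smul] at h
    rw [← h]
    refine integral_congr_ae (Eventually.of_forall fun ξ => ?_)
    simp only
    congr 4
    field_simp
  have h4 : ∫ ξ in Icc (-R) R, ((tn (ξ / R) : ℝ) : ℂ) * Complex.exp (((ξ * u : ℝ) : ℂ) * I) =
      ∫ ξ : ℝ, ((tn (ξ / R) : ℝ) : ℂ) * Complex.exp (((ξ * u : ℝ) : ℂ) * I) := by
    apply setIntegral_eq_integral_of_forall_compl_eq_zero
    intro ξ hξ
    rw [tn_zero, ofReal_zero, zero_mul]
    rw [abs_div, abs_of_pos hR, one_le_div hR]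
    by_contra hc
    push Not at hc
    rw [abs_lt] at hc
    exact hξ ⟨hc.1.le, hc.2.le⟩
  rw [h4, h3]
  have h5 : ∫ v : ℝ, ((tn v : ℝ) : ℂ) * Complex.exp (((v * (R * u) : ℝ) : ℂ) * I) =
      ((Real.sinc (R * u / 2) ^ 2 : ℝ) : ℂ) := by
    rw [← h1]
    refine integral_congr_ae (Eventually.of_forall fun v => ?_)
    have e : v * (R * u) = -2 * Real.pi * v * -(R * u / (2 * Real.pi)) := by field_simp
    simp only [smul_eq_mul]
    rw [mul_comm, e]
    rfl
  rw [h5]
  unfold KR
  push_cast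
  field_simp

/-- the total mass near `0` tends to `1` -/
lemma KR_mass {η : ℝ} (hη : 0 < η) {c : ℝ} (hc : c < 1) :
    ∃ R : ℝ, 0 < R ∧ c ≤ ∫ u in (-η)..η, KR R u := by
  have hpi := Real.pi_pos
  have h1 : ∫ t : ℝ, Real.sinc (Real.pi * t) ^ 2 = 1 := by
    have := (Pool.Agent.Helper7.Simplex.OT.J26884.sinc_fourier 0).2
    simpa using this
  have hint : Integrable (fun t : ℝ => Real.sinc (Real.pi * t) ^ 2) :=
    Pool.Agent.Helper7.Simplex.OT.J26884.sinc_fourier_int
  have ht : Tendsto (fun R : ℝ => R * η / (2 * Real.pi)) atTop atTop := by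
    have : (fun R : ℝ => R * η / (2 * Real.pi)) = fun R => R * (η / (2 * Real.pi)) := by
      funext R; ring
    rw [this]
    exact tendsto_id.atTop_mul_const (by positivity)
  have ht2 : Tendsto (fun R : ℝ => -(R * η / (2 * Real.pi))) atTop atBot := tendsto_neg_atTop_atBot.comp ht
  have h2 := intervalIntegral_tendsto_integral hint ht2 ht
  rw [h1] at h2
  have h3 := (h2.eventually (eventually_gt_nhds hc)).and (eventually_gt_atTop (0:ℝ))
  obtain ⟨R, h4, h5⟩ := h3.exists
  refine ⟨R, h5, le_of_lt (lt_of_lt_of_eq h4 ?_)⟩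
  have hcn : R / (2 * Real.pi) ≠ 0 := by positivity
  have h6 := intervalIntegral.integral_comp_mul_left (a := -η) (b := η)
    (fun t : ℝ => Real.sinc (Real.pi * t) ^ 2) hcn
  unfold KR
  rw [intervalIntegral.integral_const_mul]
  have h7 : ∀ u : ℝ, Real.sinc (R * u / 2) ^ 2 = Real.sinc (Real.pi * (R / (2 * Real.pi) * u)) ^ 2 := by
    intro u
    congr 2
    field_simp
  simp_rw [h7]
  rw [h6, smul_eq_mul, ← mul_assoc, mul_inv_cancel₀ hcn, one_mul]
  congr 1 <;> ring

/-- the majorant -/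
noncomputable def mj (V A η R x : ℝ) : ℝ := ∫ y in Ioi (-η), A * Real.exp (-(2 * V * y)) * KR R (x - y)

lemma exp_int {V : ℝ} (hV : 0 < V) (η : ℝ) : IntegrableOn (fun y : ℝ => Real.exp (-(2 * V * y))) (Ioi (-η)) := by
  have h := integrableOn_exp_mul_Ioi (a := -(2 * V)) (by linarith) (-η)
  refine h.congr_fun (fun y _ => ?_) measurableSet_Ioi
  simp only
  congr 1
  ring

lemma mj_int {V A R : ℝ} (hV : 0 < V) (hR : 0 < R) (η x : ℝ) :
    IntegrableOn (fun y : ℝ => A * Real.exp (-(2 * V * y)) * KR R (x - y)) (Ioi (-η)) := by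
  refine ((exp_int hV η).const_mul A).mul_bdd (c := R / (2 * Real.pi)) ?_ ?_
  · exact ((KR_cont R).comp (by fun_prop : Continuous fun y : ℝ => x - y)).aestronglyMeasurable
  · refine Eventually.of_forall fun y => ?_
    rw [Real.norm_of_nonneg (KR_nonneg hR _)]
    exact KR_le hR _

lemma mj_nonneg {V A R : ℝ} (hA : 0 ≤ A) (hR : 0 < R) (η x : ℝ) : 0 ≤ mj V A η R x := by
  refine integral_nonneg fun y => ?_
  have := KR_nonneg hR (x - y)
  positivity

lemma mj_ge {V A R η : ℝ} (hV : 0 < V) (hA : 0 ≤ A) (hR : 0 < R) (hη : 0 < η) {x : ℝ} (hx : 0 < x) :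
    A * Real.exp (-(2 * V * (x + η))) * ∫ u in (-η)..η, KR R u ≤ mj V A η R x := by
  have h1 : ∫ u in (-η)..η, KR R u = ∫ y in (x - η)..(x + η), KR R (x - y) := by
    rw [intervalIntegral.integral_comp_sub_left (fun u => KR R u) x]
    congr 1 <;> ring
  rw [h1, ← intervalIntegral.integral_const_mul, intervalIntegral.integral_of_le (by linarith)]
  unfold mj
  calc ∫ y in Ioc (x - η) (x + η), A * Real.exp (-(2 * V * (x + η))) * KR R (x - y)
      ≤ ∫ y in Ioc (x - η) (x + η), A * Real.exp (-(2 * V * y)) * KR R (x - y) := by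
        refine setIntegral_mono_on ?_ ?_ measurableSet_Ioc fun y hy => ?_
        · apply Continuous.integrableOn_Ioc
          have := (KR_cont R).comp (by fun_prop : Continuous fun y : ℝ => x - y)
          exact continuous_const.mul this
        · exact (mj_int hV hR η x).mono_set fun y hy => by
            have := hy.1
            simp only [mem_Ioi]; linarith
        · have := KR_nonneg hR (x - y)
          have h2 : Real.exp (-(2 * V * (x + η))) ≤ Real.exp (-(2 * V * y)) := by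
            apply Real.exp_le_exp.2
            have := hy.2
            nlinarith
          gcongr
    _ ≤ _ := by
        refine setIntegral_mono_set (mj_int hV hR η x) ?_ ?_
        · refine Eventually.of_forall fun y => ?_
          have := KR_nonneg hR (x - y)
          simp only [Pi.zero_apply]
          positivity
        · exact LE.le.eventuallyLE fun y hy => by
            have := hy.1
            simp only [mem_Ioi]; linarith

/-- the transform -/
noncomputable def ph (V A η R ξ : ℝ) : ℂ :=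
  ((1 / (2 * Real.pi) * tn (ξ / R) * A : ℝ) : ℂ) * (Complex.exp ((2 * V + ξ * I) * η) / (2 * V + ξ * I))

lemma den_ne {V : ℝ} (hV : 0 < V) (ξ : ℝ) : (2 * V + ξ * I : ℂ) ≠ 0 := by
  intro h
  have := congrArg Complex.re h
  simp at this
  linarith

lemma ph_cont {V A η R : ℝ} (hV : 0 < V) : Continuous (ph V A η R) := by
  unfold ph
  have h1 := tn_cont
  refine Continuous.mul (by fun_prop) (Continuous.div (by fun_prop) (by fun_prop) fun ξ => den_ne hV ξ)

lemma ph_zero_of {V A η R : ℝ} (hR : 0 < R) {ξ : ℝ} (h : R < |ξ|) : ph V A η R ξ = 0 := by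
  unfold ph
  rw [tn_zero]
  · simp
  · rw [abs_div, abs_of_pos hR, one_le_div hR]
    exact h.le

lemma inner_int {V : ℝ} (hV : 0 < V) (η ξ : ℝ) :
    ∫ y in Ioi (-η), Complex.exp (-(2 * V + ξ * I) * y) = Complex.exp ((2 * V + ξ * I) * η) / (2 * V + ξ * I) := by
  have h := integral_exp_mul_complex_Ioi (a := -(2 * V + ξ * I)) (by simp; linarith) (-η)
  rw [h]
  rw [neg_div_neg_eq]
  congr 2
  push_cast
  ring

lemma mj_eq {V A R : ℝ} (hV : 0 < V) (hR : 0 < R) (η x : ℝ) : ((mj V A η R x : ℝ) : ℂ) =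
    ∫ ξ in Icc (-R) R, ph V A η R ξ * Complex.exp (((ξ * x : ℝ) : ℂ) * I) := by
  have hpi := Real.pi_pos
  -- the double integral
  have hswap : ∫ ξ in Icc (-R) R, (∫ y in Ioi (-η), ((1 / (2 * Real.pi) * tn (ξ / R) * A : ℝ) : ℂ) *
        (Complex.exp (-(2 * V + ξ * I) * y) * Complex.exp (((ξ * x : ℝ) : ℂ) * I))) =
      ∫ y in Ioi (-η), (∫ ξ in Icc (-R) R, ((1 / (2 * Real.pi) * tn (ξ / R) * A : ℝ) : ℂ) *
        (Complex.exp (-(2 * V + ξ * I) * y) * Complex.exp (((ξ * x : ℝ) : ℂ) * I))) := by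
    apply integral_integral_swap
    have hb : Integrable (fun q : ℝ × ℝ => (1 / (2 * Real.pi) * |A|) * Real.exp (-(2 * V * q.2)))
        ((volume.restrict (Icc (-R) R)).prod (volume.restrict (Ioi (-η)))) := by
      have h1 : Integrable (fun _ : ℝ => (1 / (2 * Real.pi) * |A|)) (volume.restrict (Icc (-R) R)) := by
        exact integrable_const _
      exact h1.mul_prod (exp_int hV η)
    refine hb.mono' ?_ ?_
    · apply Continuous.aestronglyMeasurable
      have h1 := tn_cont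
      simp only [Function.uncurry_def]
      fun_prop
    · refine Eventually.of_forall fun q => ?_
      simp only [Function.uncurry_def]
      rw [norm_mul, norm_mul, Complex.norm_exp_ofReal_mul_I, mul_one, Complex.norm_exp, Complex.norm_real,
        Real.norm_eq_abs, abs_mul, abs_mul, abs_of_nonneg (tn_nonneg _), abs_of_nonneg (by positivity : 0 ≤ 1 / (2 * Real.pi))]
      have h2 : (-(2 * (V:ℂ) + q.1 * I) * q.2).re = -(2 * V * q.2) := by
        simp
      rw [h2]
      have h3 := tn_le (q.1 / R)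
      have h4 := tn_nonneg (q.1 / R)
      have h5 := Real.exp_pos (-(2 * V * q.2))
      have h6 : 0 ≤ 1 / (2 * Real.pi) := by positivity
      apply mul_le_mul_of_nonneg_right _ h5.le
      apply mul_le_mul_of_nonneg_right _ (abs_nonneg A)
      calc 1 / (2 * Real.pi) * tn (q.1 / R) ≤ 1 / (2 * Real.pi) * 1 := by gcongr
        _ = _ := by ring
  have hL : ∫ ξ in Icc (-R) R, ph V A η R ξ * Complex.exp (((ξ * x : ℝ) : ℂ) * I) =
      ∫ ξ in Icc (-R) R, (∫ y in Ioi (-η), ((1 / (2 * Real.pi) * tn (ξ / R) * A : ℝ) : ℂ) *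
        (Complex.exp (-(2 * V + ξ * I) * y) * Complex.exp (((ξ * x : ℝ) : ℂ) * I))) := by
    refine integral_congr_ae (Eventually.of_forall fun ξ => ?_)
    simp only
    rw [integral_const_mul, integral_mul_const, inner_int hV]
    unfold ph
    ring
  rw [hL, hswap]
  unfold mj
  rw [← integral_complex_ofReal]
  refine integral_congr_ae (Eventually.of_forall fun y => ?_)
  simp only
  rw [ofReal_mul, KR_eq hR, ← integral_const_mul, ← integral_const_mul]
  refine integral_congr_ae (Eventually.of_forall fun ξ => ?_)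
  simp only
  have e1 : Complex.exp (-(2 * V + ξ * I) * y) * Complex.exp (((ξ * x : ℝ) : ℂ) * I) =
      ((Real.exp (-(2 * V * y)) : ℝ) : ℂ) * Complex.exp (((ξ * (x - y) : ℝ) : ℂ) * I) := by
    rw [ofReal_exp, ← Complex.exp_add, ← Complex.exp_add]
    congr 1
    push_cast
    ring
  rw [e1]
  push_cast
  ring

theorem maj : ∀ V ε : ℝ, 0 < V → 0 < ε → ∃ (R : ℝ) (φ : ℝ → ℂ) (m : ℝ → ℝ), 0 < R ∧ Continuous φ ∧
    (∀ ξ, R < |ξ| → φ ξ = 0) ∧ (∀ x, 0 ≤ m x) ∧ (∀ x, 0 < x → Real.exp (-(2 * V * x)) ≤ m x) ∧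
    (∀ x : ℝ, ((m x : ℝ) : ℂ) = ∫ ξ in Set.Icc (-R) R, φ ξ * Complex.exp (((ξ * x : ℝ) : ℂ) * I)) ∧
    2 * Real.pi * ‖φ 0‖ ≤ 1 / (2 * V) + ε := by
  intro V ε hV hε
  have hpi := Real.pi_pos
  -- choice of η
  obtain ⟨η, hη, hη2⟩ : ∃ η : ℝ, 0 < η ∧ (1 + η) * Real.exp (4 * V * η) / (2 * V) ≤ 1 / (2 * V) + ε := by
    have hc : ContinuousAt (fun η : ℝ => (1 + η) * Real.exp (4 * V * η) / (2 * V)) 0 := by
      apply Continuous.continuousAt
      fun_prop
    have h0 : (1 + (0:ℝ)) * Real.exp (4 * V * 0) / (2 * V) < 1 / (2 * V) + ε := by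
      simp only [mul_zero, Real.exp_zero, add_zero, mul_one]
      linarith
    have h1 : ∀ᶠ η in 𝓝 (0:ℝ), (1 + η) * Real.exp (4 * V * η) / (2 * V) < 1 / (2 * V) + ε :=
      hc.eventually (eventually_lt_nhds h0)
    have h2 := (h1.filter_mono (nhdsWithin_le_nhds (s := Ioi (0:ℝ)))).and self_mem_nhdsWithin
    obtain ⟨η, h3, h4⟩ := h2.exists
    exact ⟨η, h4, h3.le⟩
  obtain ⟨R, hR, hR2⟩ := KR_mass hη (c := 1 / (1 + η)) (by rw [div_lt_one (by linarith)]; linarith)
  set A : ℝ := (1 + η) * Real.exp (2 * V * η) with hA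
  have hA0 : 0 < A := by positivity
  refine ⟨R, ph V A η R, mj V A η R, hR, ph_cont hV, fun ξ h => ph_zero_of hR h, fun x => mj_nonneg hA0.le hR η x,
    fun x hx => ?_, fun x => mj_eq hV hR η x, ?_⟩
  · refine le_trans ?_ (mj_ge hV hA0.le hR hη hx)
    have h1 : A * Real.exp (-(2 * V * (x + η))) = (1 + η) * Real.exp (-(2 * V * x)) := by
      rw [hA, mul_assoc, ← Real.exp_add]
      congr 2
      ring
    rw [h1]
    have h2 : 0 < (1 + η) * Real.exp (-(2 * V * x)) := by positivity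
    calc Real.exp (-(2 * V * x)) = (1 + η) * Real.exp (-(2 * V * x)) * (1 / (1 + η)) := by
          field_simp
      _ ≤ _ := mul_le_mul_of_nonneg_left hR2 h2.le
  · unfold ph
    rw [zero_div]
    have h1 : tn 0 = 1 := by unfold tn; simp
    rw [h1, norm_mul, Complex.norm_real, Real.norm_of_nonneg (by positivity), norm_div, Complex.norm_exp]
    have h2 : ((2 * (V:ℂ) + ((0:ℝ):ℂ) * I) * η).re = 2 * V * η := by simp
    have h3 : ‖(2 * (V:ℂ) + ((0:ℝ):ℂ) * I)‖ = 2 * V := by
      rw [ofReal_zero, zero_mul, add_zero, norm_mul, Complex.norm_real, Real.norm_of_nonneg hV.le]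
      simp
    rw [h2, h3]
    refine le_trans (le_of_eq ?_) hη2
    rw [hA]
    have h4 : Real.exp (4 * V * η) = Real.exp (2 * V * η) * Real.exp (2 * V * η) := by
      rw [← Real.exp_add]; congr 1; ring
    rw [h4]
    field_simp

end Pool.Agent.V5helper19.PL
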