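import Pool.Agent.V5helper51.PL.Stm
import Pool.Agent.V5helper19.PL.MAJ0

set_option autoImplicit false

namespace Pool.Agent.V5helper19.PL

open Pool.Agent.V5helper51.PL

theorem t_MAJ : S_MAJ := maj

end Pool.Agent.V5helper19.PL
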