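import Mathlib

set_option autoImplicit false

/-!
(VAR) of project PL: the mean square of the window integrals.
-/

namespace Pool.Agent.V5helper19.PLV

open MeasureTheory Filter Topology Set

lemma int_of_bdd {a : ℝ → ℝ} {H : ℝ} (ha : Measurable a) (h0 : ∀ u, 0 ≤ a u) (h1 : ∀ u, a u ≤ 1)
    (hs : ∀ u, u ∉ Ioc 0 H → a u = 0) : Integrable a := by
  have h2 : IntegrableOn a (Ioc 0 H) := by
    refine Measure.integrableOn_of_bounded (M := 1) (by simp) ha.aestronglyMeasurable ?_
    refine Eventually.of_forall fun u => ?_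
    rw [Real.norm_of_nonneg (h0 u)]
    exact h1 u
  rwa [integrableOn_iff_integrable_of_support_subset] at h2
  intro u hu
  by_contra hc
  exact hu (hs u hc)

/-- the square of an integral by differences -/
lemma sq_int {a : ℝ → ℝ} {H : ℝ} (hH : 0 < H) (ha : Measurable a) (h0 : ∀ u, 0 ≤ a u) (h1 : ∀ u, a u ≤ 1)
    (hs : ∀ u, u ∉ Ioc 0 H → a u = 0) :
    (∫ u, a u) ^ 2 = 2 * ∫ x in Ioc 0 H, ∫ u, a u * a (u + x) := by
  have hi := int_of_bdd ha h0 h1 hs
  have e1 : (∫ u, a u) ^ 2 = ∫ u, ∫ x, a u * a (u + x) := by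
    rw [sq, ← integral_mul_const]
    refine integral_congr_ae (Eventually.of_forall fun u => ?_)
    simp only
    rw [integral_const_mul, integral_add_left_eq_self (fun x => a x) u]
  have e2 : ∫ u, ∫ x, a u * a (u + x) = ∫ x, ∫ u, a u * a (u + x) := by
    apply integral_integral_swap
    have hb : Integrable (fun q : ℝ × ℝ => (Ioc 0 H).indicator (fun _ => (1:ℝ)) q.1 *
        (Icc (-H) H).indicator (fun _ => (1:ℝ)) q.2) (volume.prod volume) := by
      apply Integrable.mul_prod
      · exact (integrable_indicator_iff measurableSet_Ioc).2 (by simp)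
      · exact (integrable_indicator_iff measurableSet_Icc).2 (by simp)
    refine hb.mono' ?_ (Eventually.of_forall fun q => ?_)
    · apply Measurable.aestronglyMeasurable
      simp only [Function.uncurry_def]
      fun_prop
    · simp only [Function.uncurry_def]
      rw [Real.norm_of_nonneg (mul_nonneg (h0 _) (h0 _))]
      by_cases hq : q.1 ∈ Ioc 0 H
      · by_cases hq2 : q.2 ∈ Icc (-H) H
        · rw [indicator_of_mem hq, indicator_of_mem hq2]
          exact mul_le_mul (h1 _) (h1 _) (h0 _) (by norm_num)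
        · have : q.1 + q.2 ∉ Ioc 0 H := by
            intro hc
            exact hq2 ⟨by linarith [hq.2, hc.1], by linarith [hq.1, hc.2]⟩
          rw [hs _ this, mul_zero]
          rw [indicator_of_mem hq, indicator_of_notMem hq2, mul_zero]
      · rw [hs _ hq, zero_mul, indicator_of_notMem hq, zero_mul]
  set r : ℝ → ℝ := fun x => ∫ u, a u * a (u + x) with hr
  have hev : ∀ x, r (-x) = r x := by
    intro x
    simp only [hr]
    rw [← integral_add_right_eq_self (fun u => a u * a (u + -x)) x]
    refine integral_congr_ae (Eventually.of_forall fun u => ?_)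
    simp only
    rw [show u + x + -x = u by ring, mul_comm]
  have habs : ∀ x, r |x| = r x := by
    intro x
    rcases abs_choice x with h | h <;> rw [h]
    exact hev x
  have e3 := integral_comp_abs (f := r)
  simp_rw [habs] at e3
  have hz : ∀ x, x ∈ Ioi (0:ℝ) \ Ioc 0 H → r x = 0 := by
    intro x hx
    have hxH : H < x := by
      by_contra hc
      push Not at hc
      exact hx.2 ⟨hx.1, hc⟩
    simp only [hr]
    have : ∀ u, a u * a (u + x) = 0 := by
      intro u
      by_cases hu : u ∈ Ioc 0 H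
      · have : u + x ∉ Ioc 0 H := fun hc => by linarith [hu.1, hc.2]
        rw [hs _ this, mul_zero]
      · rw [hs _ hu, zero_mul]
    simp_rw [this]
    simp
  rw [e1, e2]
  change ∫ x, r x = 2 * ∫ x in Ioc 0 H, r x
  rw [e3]
  congr 1
  exact setIntegral_eq_of_subset_of_forall_sdiff_eq_zero measurableSet_Ioi Ioc_subset_Ioi_self hz

theorem var (F G : ℝ → ℝ) (T H : ℝ) (hF : Measurable F) (h0 : ∀ s, 0 ≤ F s) (h1 : ∀ s, F s ≤ 1) (hH : 0 < H)
    (hT : 0 < T) (hG : IntervalIntegrable G volume 0 H)
    (hc : ∀ u x : ℝ, 0 ≤ u → 0 ≤ x → u + x ≤ H → ∫ t in (0:ℝ)..T, F (t + u) * F (t + u + x) ≤ G x) :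
    ∫ t in (0:ℝ)..T, (∫ s in t..(t + H), F s) ^ 2 ≤ 2 * ∫ x in (0:ℝ)..H, (H - x) * G x := by
  set μ : Measure ℝ := volume.restrict (Ioc 0 H) with hμ
  set τ : Measure ℝ := volume.restrict (Ioc 0 T) with hτ
  let d : ℝ → ℝ := (Ioc 0 H).indicator (fun _ => (1:ℝ))
  have hd : Measurable d := measurable_const.indicator measurableSet_Ioc
  have hd1 : ∀ u, u ∈ Ioc 0 H → d u = 1 := fun u hu => indicator_of_mem hu _
  have hd0 : ∀ u, u ∉ Ioc 0 H → d u = 0 := fun u hu => indicator_of_notMem hu _
  have hdn : ∀ u, 0 ≤ d u := by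
    intro u
    by_cases hu : u ∈ Ioc 0 H
    · rw [hd1 u hu]; norm_num
    · rw [hd0 u hu]
  have hdl : ∀ u, d u ≤ 1 := by
    intro u
    by_cases hu : u ∈ Ioc 0 H
    · rw [hd1 u hu]
    · rw [hd0 u hu]; norm_num
  -- the functions a_t
  have ha0 : ∀ t u, 0 ≤ F (t + u) * d u := fun t u => mul_nonneg (h0 _) (hdn _)
  have ha1 : ∀ t u, F (t + u) * d u ≤ 1 := fun t u => mul_le_one₀ (h1 _) (hdn _) (hdl _)
  have hE : ∀ t : ℝ, (∫ s in t..(t + H), F s) ^ 2 =
      2 * ∫ q, (F (t + q.2) * d q.2) * (F (t + (q.2 + q.1)) * d (q.2 + q.1)) ∂(μ.prod μ) := by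
    intro t
    have e1 : ∫ s in t..(t + H), F s = ∫ u, F (t + u) * d u := by
      have h := intervalIntegral.integral_comp_add_left (a := 0) (b := H) (fun s => F s) t
      rw [add_zero] at h
      rw [← h, intervalIntegral.integral_of_le hH.le]
      have h2 : ∫ u in Ioc 0 H, F (t + u) = ∫ u in Ioc 0 H, F (t + u) * d u := by
        refine setIntegral_congr_fun measurableSet_Ioc fun u hu => ?_

        rw [hd1 u hu, mul_one]
      rw [h2]
      apply setIntegral_eq_integral_of_forall_compl_eq_zero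
      intro u hu
      rw [hd0 u hu, mul_zero]
    rw [e1, sq_int (a := fun u => F (t + u) * d u) hH (by fun_prop) (ha0 t) (ha1 t)
      (fun u hu => by rw [hd0 u hu, mul_zero])]
    congr 1
    rw [integral_prod]
    · refine integral_congr_ae (Eventually.of_forall fun x => ?_)
      simp only
      symm
      apply setIntegral_eq_integral_of_forall_compl_eq_zero
      intro u hu
      rw [hd0 u hu, mul_zero, zero_mul]
    · refine Integrable.of_bound (C := 1) ?_ (Eventually.of_forall fun q => ?_)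
      · apply Measurable.aestronglyMeasurable
        fun_prop
      · rw [Real.norm_of_nonneg (mul_nonneg (ha0 _ _) (ha0 _ _))]
        exact mul_le_one₀ (ha1 _ _) (ha0 _ _) (ha1 _ _)
  have hsw : ∫ t, (∫ q, (F (t + q.2) * d q.2) * (F (t + (q.2 + q.1)) * d (q.2 + q.1)) ∂(μ.prod μ)) ∂τ =
      ∫ q, (∫ t, (F (t + q.2) * d q.2) * (F (t + (q.2 + q.1)) * d (q.2 + q.1)) ∂τ) ∂(μ.prod μ) := by
    apply integral_integral_swap
    refine Integrable.of_bound (C := 1) ?_ (Eventually.of_forall fun q => ?_)
    · apply Measurable.aestronglyMeasurable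
      simp only [Function.uncurry_def]
      fun_prop
    · simp only [Function.uncurry_def]
      rw [Real.norm_of_nonneg (mul_nonneg (ha0 _ _) (ha0 _ _))]
      exact mul_le_one₀ (ha1 _ _) (ha0 _ _) (ha1 _ _)
  have hGi : Integrable G μ := (intervalIntegrable_iff_integrableOn_Ioc_of_le hH.le).1 hG
  let e : ℝ × ℝ → ℝ := fun q => if q.2 + q.1 ≤ H then 1 else 0
  have he : Measurable e := Measurable.ite (measurableSet_le (by fun_prop) (by fun_prop)) (by fun_prop) (by fun_prop)
  have hRi : Integrable (fun q : ℝ × ℝ => G q.1 * e q) (μ.prod μ) := by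
    refine (hGi.comp_fst μ).mul_bdd (c := 1) he.aestronglyMeasurable (Eventually.of_forall fun q => ?_)
    simp only [e]
    split_ifs <;> simp
  have hmem : ∀ᵐ q ∂(μ.prod μ), q ∈ Ioc 0 H ×ˢ Ioc 0 H := by
    rw [hμ, Measure.prod_restrict]
    exact ae_restrict_mem (measurableSet_Ioc.prod measurableSet_Ioc)
  have hle : ∫ q, (∫ t, (F (t + q.2) * d q.2) * (F (t + (q.2 + q.1)) * d (q.2 + q.1)) ∂τ) ∂(μ.prod μ) ≤
      ∫ q, G q.1 * e q ∂(μ.prod μ) := by
    refine integral_mono_of_nonneg (Eventually.of_forall fun q => ?_) hRi ?_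
    · exact integral_nonneg fun t => mul_nonneg (ha0 _ _) (ha0 _ _)
    · filter_upwards [hmem] with q hq
      have hq1 := hq.1
      have hq2 := hq.2
      simp only [e]
      by_cases hs : q.2 + q.1 ≤ H
      · rw [if_pos hs, mul_one]
        have h2 := hc q.2 q.1 hq2.1.le hq1.1.le hs
        rw [intervalIntegral.integral_of_le hT.le] at h2
        refine le_trans (le_of_eq ?_) h2
        refine integral_congr_ae (Eventually.of_forall fun t => ?_)
        simp only
        rw [hd1 _ hq2, hd1 (q.2 + q.1) ⟨by linarith [hq1.1, hq2.1], hs⟩, mul_one, mul_one, add_assoc]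
      · rw [if_neg hs, mul_zero]
        have : ∀ t, (F (t + q.2) * d q.2) * (F (t + (q.2 + q.1)) * d (q.2 + q.1)) = 0 := by
          intro t
          rw [hd0 (q.2 + q.1) (fun h => hs h.2), mul_zero, mul_zero]
        simp_rw [this]
        simp
  have hR : ∫ q, G q.1 * e q ∂(μ.prod μ) = ∫ x in (0:ℝ)..H, (H - x) * G x := by
    rw [integral_prod _ hRi, intervalIntegral.integral_of_le hH.le]
    refine setIntegral_congr_fun measurableSet_Ioc fun x hx => ?_
    simp only
    rw [integral_const_mul, mul_comm]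
    congr 1
    simp only [e]
    have h2 : ∫ u, (if u + x ≤ H then (1:ℝ) else 0) ∂μ = ∫ u in Ioc 0 (H - x), (1:ℝ) := by
      have h3 : (fun u : ℝ => if u + x ≤ H then (1:ℝ) else 0) = (Iic (H - x)).indicator (fun _ => (1:ℝ)) := by
        funext u
        by_cases hu : u + x ≤ H
        · rw [if_pos hu, indicator_of_mem (by simp only [mem_Iic]; linarith)]
        · rw [if_neg hu, indicator_of_notMem (by simp only [mem_Iic]; intro h; exact hu (by linarith))]
      rw [h3, integral_indicator measurableSet_Iic, hμ, Measure.restrict_restrict measurableSet_Iic]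
      congr 2
      ext u
      simp only [mem_inter_iff, mem_Iic, mem_Ioc]
      constructor
      · rintro ⟨h4, h5, h6⟩
        exact ⟨h5, h4⟩
      · rintro ⟨h4, h5⟩
        exact ⟨h5, h4, by linarith [hx.1]⟩
    rw [h2]
    simp [hx.2]
  rw [intervalIntegral.integral_of_le hT.le]
  simp_rw [hE]
  rw [integral_const_mul]
  rw [hsw, ← hR]
  linarith

end Pool.Agent.V5helper19.PLV
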