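import Pool.Agent.V5helper51.PL.Stm
import Pool.Agent.V5helper19.PL.VAR0

set_option autoImplicit false

namespace Pool.Agent.V5helper19.PL

open Pool.Agent.V5helper51.PL

theorem t_VAR : S_VAR := fun F G T H hF h0 h1 hH hT hG hc => Pool.Agent.V5helper19.PLV.var F G T H hF h0 h1 hH hT hG hc

end Pool.Agent.V5helper19.PL
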